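import Pool.Agent.helper70.CC.Z

set_option autoImplicit false

/-!
# The arrangement `1 ⊔ 1⟨1⟩ ⊔ 1⟨18⟩` is realised by an M-curve of degree 8

The polynomial (102 digits, from a patchworking, moved towards the interior of its
chamber) and the certificate (885 columns of boxes along the pencil of lines through `(0:0:1)`,
9429 boxes, positivity of polynomials on boxes by integer Bernstein tests, labels and ranks for
the combinatorial part) are in the folder `Pool/Agent/helper70/CC`, the soundness proof of the
checker is in `Pool/Agent/helper70/M8` and `M9`.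
-/

open MvPolynomial

namespace Pool.Agent.Results.MP_b7f146_ag.MOctic_1_1_18

/-- The nesting relation of `1 ⊔ 1⟨1⟩ ⊔ 1⟨18⟩`: oval `0` contains the ovals `3, ..., 20`, oval `1`
contains the oval `21`, there is no other inclusion (oval `2` is empty and outermost). -/
def nest (i j : Fin 22) : Prop := (i = 0 ∧ 3 ≤ j ∧ j ≤ 20) ∨ (i = 1 ∧ j = 21)

instance (i j : Fin 22) : Decidable (nest i j) := by unfold nest; infer_instance

theorem result : ∃ F : MvPolynomial (Fin 3) ℝ, F.IsHomogeneous 8 ∧ Oct.Nonsingular F ∧
    Oct.HasArrangement F 22 nest := by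
  obtain ⟨F, h1, h2, h3⟩ := Oct.CC.cert
  refine ⟨F, h1, h2, ?_⟩
  have h4 : Oct.HasArrangement F 22 (Oct.nestOf Oct.CC.gl.par) := h3
  have h5 : (Oct.nestOf Oct.CC.gl.par : Fin 22 → Fin 22 → Prop) = nest := by
    funext i j
    apply propext
    show Oct.ancB Oct.CC.gl.par 22 (i.1 + 1) (j.1 + 1) = true ↔ nest i j
    revert i j
    decide +kernel
  rw [h5] at h4
  exact h4

end Pool.Agent.Results.MP_b7f146_ag.MOctic_1_1_18
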